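import Pool.Agent.NH98.EW.Asm2

/-!
# The original product of Birch and Swinnerton-Dyer misses the rate `1 / log x` in every window `[X^(1-δ), X]`

`E : y² = x³ + a x + b` is an elliptic curve over `ℚ`, `a, b ∈ ℤ`, `N_p` is the number of points modulo
`p` (with the point at infinity), and `P(x) = ∏_{p ≤ x, p ∤ 2Δ} N_p / p` is the original product of Birch and
Swinnerton-Dyer. `F` is the entire continuation of the incomplete `L`-series and `f` is the newform of `E`. Let
`m = ord_{s=1} F` and `T = √2 e^{mγ} m! / |F^{(m)}(1)|`, the only order and the only constant possible in the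
conjecture `P(x) ∼ T (log x)^m` (Goldfeld 1982). No hypothesis of Riemann type is made; all statements hold for EVERY
curve, for every `δ > 0` and every `K`.

* In every window `[X^(1-δ), X]` (`X` large) there is an `x` with `(P(x) / (T (log x)^m) - 1) log x > K`.
* If `F` has no REAL zeros `s > 1`, there is also an `x` with `(P(x) / (T (log x)^m) - 1) log x < -K` in every window; so
  `P(x) - T (log x)^m` changes its sign in every window, with oscillations which are much larger than `(log x)^(m-1)`.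
* For all real `ρ` and all `C > 0` there is in every window an `x` with `|P(x) / (C (log x)^ρ) - 1| log x > K`.

So the natural strengthening of the conjecture of Birch and Swinnerton-Dyer by the error term `O(1 / log x)` of the
theorem of Mertens is false for every elliptic curve, even if it is restricted to one sequence of windows.

Proof. If there is a zero with `Re s > 1` much larger oscillations are known (`Pool.Agent.TH949.TX`). Otherwise let
`φ(u) = u (log P(e^u) - m log u - log T)`. The theorem of Rankin and Selberg with the error term `o(1 / log x)`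
(`Pool.Agent.NH98.RS2`: continuation of the Rankin-Selberg series to `Re s > 1/2`, no zeros on the line, theorem of
Ingham and Karamata) shows that up to `o(1)` it is the same function of the product over the prime powers. Its mean square is
bounded, and its Laplace transform has at `i x`, `x ≠ 0`, the singular part `m_x / (i x (s - i x))` (`m_x` the
multiplicity of the zero `1 + i x`) up to a function with locally integrable boundary values. A bound `φ ≤ B` in a
sequence of windows `[(1-δ)U, U]` and the non-negative trigonometric sums of Bochner and Fejér give, for all `σ > 0`,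
`∑_{x > 0} m_x 2σ / (σ² + x²) ≤ B'`; by the product of Hadamard and the functional equation the completed
`L`-function would be `O(e^{Kσ})` for real `σ`, but it grows like `Γ(1 + σ)`.
-/

set_option autoImplicit false

namespace Pool.Agent.Results.MP_3283e1_nt.EveryWindowRate

open Filter Topology Classical CongruenceSubgroup UpperHalfPlane
open scoped MatrixGroups

/-- `N_p`: the number of points of `y² = x³ + a x + b` modulo `p`, with the point at infinity. -/
noncomputable def numPoints (a b : ℤ) (p : ℕ) : ℕ :=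
  Nat.card {q : ZMod p × ZMod p // q.2 ^ 2 = q.1 ^ 3 + (a : ZMod p) * q.1 + (b : ZMod p)} + 1

/-- `p` is a prime that does not divide `2 Δ`, where `Δ = -4 a³ - 27 b²`. -/
def Good (a b : ℤ) (p : ℕ) : Prop :=
  p.Prime ∧ ¬ ((p : ℤ) ∣ 2 * (-4 * a ^ 3 - 27 * b ^ 2))

/-- The original Birch and Swinnerton-Dyer product `P(x) = ∏_{p ≤ x, p ∤ 2Δ} N_p / p`. -/
noncomputable def P (a b : ℤ) (x : ℝ) : ℝ :=
  ∏ p ∈ (Finset.range (⌊x⌋₊ + 1)).filter (Good a b), ((numPoints a b p : ℝ) / p)

/-- `F` is an entire function which for `Re s > 3/2` is the incomplete `L`-series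
`∏_{p ∤ 2Δ} (1 - a_p p^{-s} + p^{1-2s})⁻¹`, `a_p = p + 1 - N_p`, of `y² = x³ + a x + b`. -/
def IsLSeries (a b : ℤ) (F : ℂ → ℂ) : Prop :=
  Differentiable ℂ F ∧ ∀ s : ℂ, (3 : ℝ) / 2 < s.re →
    HasProd (fun p : ℕ => if Good a b p then
      (1 - ((p : ℂ) + 1 - (numPoints a b p : ℂ)) * (p : ℂ) ^ (-s) + (p : ℂ) ^ (1 - 2 * s))⁻¹ else 1)
      (F s)

/-- The `n`-th Fourier coefficient of `f`. -/
noncomputable def coef {N : ℕ} (f : CuspForm (Gamma0 N : Subgroup (GL (Fin 2) ℝ)) 2) (n : ℕ) : ℂ :=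
  (qExpansion 1 f).coeff n

/-- `f ∈ S_2(Γ₀(N))` is the newform of the elliptic curve `E : y² = x³ + a x + b` of conductor `N`: the
Fourier coefficients `c(n)` of `f` are real with `c(1) = 1`, they satisfy the Hecke relations
`c(mn) = c(m) c(n)` for coprime `m`, `n` and `c(p^(j+2)) = c(p) c(p^(j+1)) - p c(p^j)` (without the last
term if `p ∣ N`), `c(p) = a_p = p + 1 - N_p` for all primes `p ∤ 2Δ`, `|c(p)| ≤ 2 √p` for all
`p ∤ N` (Hasse), `c(p) = 0, 1, -1` for `p ∣ N`, and `f` is an eigenfunction of the involution of Fricke,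
`f(-1/(Nz)) = w N z² f(z)` with `w = 1` or `w = -1`. -/
structure IsNewformOf (a b : ℤ) (N : ℕ) (f : CuspForm (Gamma0 N : Subgroup (GL (Fin 2) ℝ)) 2) :
    Prop where
  one : coef f 1 = 1
  real : ∀ n, (coef f n).im = 0
  mul : ∀ m n : ℕ, Nat.Coprime m n → coef f (m * n) = coef f m * coef f n
  pow : ∀ p j : ℕ, p.Prime → coef f (p ^ (j + 2)) = coef f p * coef f (p ^ (j + 1)) -
      (if p ∣ N then 0 else (p : ℂ) * coef f (p ^ j))
  points : ∀ p : ℕ, Good a b p → coef f p = (p : ℂ) + 1 - (numPoints a b p : ℂ)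
  good : ∀ p : ℕ, p.Prime → ¬ p ∣ N → ‖coef f p‖ ≤ 2 * Real.sqrt p
  bad : ∀ p : ℕ, p.Prime → p ∣ N → coef f p = 0 ∨ coef f p = 1 ∨ coef f p = -1
  fricke : ∃ w : ℂ, (w = 1 ∨ w = -1) ∧ ∀ z z' : ℍ, (z' : ℂ) = -1 / ((N : ℂ) * (z : ℂ)) →
    f z' = w * (N : ℂ) * (z : ℂ) ^ 2 * f z

/-- Goldfeld's constant `T = √2 e^{mγ} m! / |F^{(m)}(1)|` -/
noncomputable def T (F : ℂ → ℂ) (m : ℕ) : ℝ :=
  √2 * Real.exp (m * Real.eulerMascheroniConstant) * (m.factorial : ℝ) / ‖iteratedDeriv m F 1‖

/-- For all sufficiently large `X` there is an `x` with the property `S` in the window `[X^(1-δ), X]`. -/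
def InEveryWindow (δ : ℝ) (S : ℝ → Prop) : Prop :=
  ∀ᶠ X : ℝ in atTop, ∃ x : ℝ, X ^ (1 - δ) ≤ x ∧ x ≤ X ∧ S x

/-! ### Translation to the definitions of the imported files -/

variable {a b : ℤ}

theorem P_eq (x : ℝ) : P a b x = Pool.Agent.W263.BSD.bsdProduct a b x := by
  unfold P Pool.Agent.W263.BSD.bsdProduct numPoints Pool.Agent.W263.BSD.pointCount
  refine Finset.prod_congr rfl fun p _ => ?_
  push_cast
  rfl

theorem numPoints_sub (p : ℕ) : (p : ℂ) + 1 - (numPoints a b p : ℂ) =
    (p : ℂ) - (Pool.Agent.W263.BSD.pointCount a b p : ℂ) := by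
  unfold numPoints Pool.Agent.W263.BSD.pointCount
  push_cast
  ring

theorem isLSeries {F : ℂ → ℂ} (hF : IsLSeries a b F) :
    Pool.Agent.W263.BSD.IsLSeries a b F := by
  refine ⟨hF.1, fun s hs => ?_⟩
  have h := hF.2 s hs
  simp only [numPoints_sub] at h
  exact h

theorem hecke {N : ℕ} {f : CuspForm (Gamma0 N : Subgroup (GL (Fin 2) ℝ)) 2}
    (hf : IsNewformOf a b N f) : Pool.Agent.TH941.Hecke f where
  one := hf.one
  real := hf.real
  mul := hf.mul
  pow := hf.pow
  good := hf.good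
  bad := fun p hp h => by
    rcases hf.bad p hp h with h1 | h1 | h1
    · have h2 : ‖coef f p‖ ≤ 1 := by rw [h1]; simp
      exact h2
    · have h2 : ‖coef f p‖ ≤ 1 := by rw [h1]; simp
      exact h2
    · have h2 : ‖coef f p‖ ≤ 1 := by rw [h1]; simp
      exact h2

theorem belongs {N : ℕ} {f : CuspForm (Gamma0 N : Subgroup (GL (Fin 2) ℝ)) 2}
    (hf : IsNewformOf a b N f) : Pool.Agent.TH941.Belongs a b f :=
  fun p hp => (hf.points p hp).trans (numPoints_sub p)

theorem fricke {N : ℕ} {f : CuspForm (Gamma0 N : Subgroup (GL (Fin 2) ℝ)) 2}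
    (hf : IsNewformOf a b N f) : Pool.Agent.NH98.RT.Fricke f := hf.fricke

theorem hyp {N : ℕ} [NeZero N] {f : CuspForm (Gamma0 N : Subgroup (GL (Fin 2) ℝ)) 2}
    (hΔ : 4 * a ^ 3 + 27 * b ^ 2 ≠ 0) (hf : IsNewformOf a b N f) {F : ℂ → ℂ} (hF : IsLSeries a b F) {r : ℕ}
    (hr : analyticOrderAt F 1 = r) : Pool.Agent.TH949.TX.Hyp a b F r where
  disc := hΔ
  rs := (hecke hf).rsSum_tendsto hΔ fun p hp => (hf.points p hp).trans (numPoints_sub p)
  gr := Pool.Agent.TH942.RZ.growth_newform hΔ (isLSeries hF) (hecke hf)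
    fun p hp => (hf.points p hp).trans (numPoints_sub p)
  lser := isLSeries hF
  ord := hr

theorem P_pos (x : ℝ) : 0 < P a b x := by
  rw [P_eq]
  exact Pool.Agent.W263.BSD.bsdProduct_pos x

/-! ### From logarithms to quotients -/

theorem log_le_sub {y : ℝ} (hy : 0 < y) : Real.log y ≤ y - 1 := Real.log_le_sub_one_of_pos hy

theorem abs_log_le {y : ℝ} (hy : 0 < y) (h : |y - 1| ≤ 1 / 2) : |Real.log y| ≤ 2 * |y - 1| := by
  have h1 := abs_le.1 h
  have h2 := log_le_sub hy
  have h3 : 1 - y⁻¹ ≤ Real.log y := Real.one_sub_inv_le_log_of_pos hy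
  have h4 : 1 - y⁻¹ = (y - 1) / y := by field_simp
  rw [h4] at h3
  have h5 : -(2 * |y - 1|) ≤ (y - 1) / y := by
    rw [le_div_iff₀ hy]
    have h6 := neg_abs_le (y - 1)
    have h7 := abs_nonneg (y - 1)
    nlinarith
  have h6 := le_abs_self (y - 1)
  have h7 := abs_nonneg (y - 1)
  rw [abs_le]
  constructor <;> linarith

/-- from the logarithm to the quotient, pointwise -/
theorem quot_abs {y l K : ℝ} (h2 : 0 < y) (h1 : 2 * |K| < l * |Real.log y|) (h3 : 2 * |K| < l) (h5 : 0 < l) :
    K < l * |y - 1| := by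
  have h6 := le_abs_self K
  rcases le_or_gt |y - 1| (1 / 2) with h7 | h7
  · have h8 := abs_log_le h2 h7
    have h9 := mul_le_mul_of_nonneg_left h8 h5.le
    linarith
  · have h9 : l * (1 / 2) < l * |y - 1| := mul_lt_mul_of_pos_left h7 h5
    linarith

theorem quot_up {y l K : ℝ} (h2 : 0 < y) (h1 : K < l * Real.log y) (h5 : 0 < l) : K < l * (y - 1) := by
  have h9 := mul_le_mul_of_nonneg_left (log_le_sub h2) h5.le
  linarith

theorem quot_down {y l K : ℝ} (h2 : 0 < y) (h1 : l * Real.log y < -(2 * |K|)) (h3 : 2 * |K| < l) (h5 : 0 < l) :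
    l * (y - 1) < -K := by
  have h6 := le_abs_self K
  have h0 : Real.log y < 0 := by
    by_contra hcon
    have := mul_nonneg h5.le (not_lt.1 hcon)
    have := abs_nonneg K
    linarith
  have hY1 : y < 1 := (Real.log_neg_iff h2).1 h0
  rcases le_or_gt |y - 1| (1 / 2) with h7 | h7
  · have h8 := abs_log_le h2 h7
    rw [abs_of_neg h0, abs_of_neg (by linarith : y - 1 < 0)] at h8
    have h9 := mul_le_mul_of_nonneg_left h8 h5.le
    linarith
  · rw [abs_of_neg (by linarith : y - 1 < 0)] at h7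
    have h9 : l * (1 / 2) < l * -(y - 1) := mul_lt_mul_of_pos_left h7 h5
    linarith

/-- it suffices to consider `δ < 1` -/
theorem every {δ : ℝ} (hδ : 0 < δ) {S : ℝ → Prop}
    (h : ∀ δ1 : ℝ, 0 < δ1 → δ1 < 1 → Pool.Agent.NH98.EW.InW δ1 S) : InEveryWindow δ S :=
  Pool.Agent.NH98.EW.InW.mono (min_le_left δ (1 / 2))
    (h (min δ (1 / 2)) (by positivity) (lt_of_le_of_lt (min_le_right _ _) (by norm_num)))

/-! ### The theorem -/

/-- **The product of Birch and Swinnerton-Dyer misses the rate `1 / log x` in every window.** -/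
theorem result (a b : ℤ) (hΔ : 4 * a ^ 3 + 27 * b ^ 2 ≠ 0) (F : ℂ → ℂ) (hF : IsLSeries a b F)
    (N : ℕ) [NeZero N] (f : CuspForm (Gamma0 N : Subgroup (GL (Fin 2) ℝ)) 2)
    (hf : IsNewformOf a b N f) :
    ∃ m : ℕ, analyticOrderAt F 1 = m ∧ 0 < T F m ∧ ∀ δ : ℝ, 0 < δ →
      (∀ K : ℝ, InEveryWindow δ
        (fun x => K < Real.log x * (P a b x / (T F m * Real.log x ^ m) - 1))) ∧
      ((∀ s : ℝ, 1 < s → F s ≠ 0) → ∀ K : ℝ, InEveryWindow δ
        (fun x => Real.log x * (P a b x / (T F m * Real.log x ^ m) - 1) < -K)) ∧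
      (∀ ρ C : ℝ, 0 < C → ∀ K : ℝ, InEveryWindow δ
        (fun x => K < Real.log x * |P a b x / (C * Real.log x ^ ρ) - 1|)) := by
  have hF' := isLSeries hF
  obtain ⟨m, hm⟩ := Pool.Agent.W263.BSD.order_finite hF'
  have hT : 0 < T F m := Pool.Agent.NH98.RT.TT_pos hF' hm
  have hd : ∀ ρ C x : ℝ, Real.log (P a b x / (C * Real.log x ^ ρ)) =
      Pool.Agent.TH270.MS.EQ.dev a b ρ C x := by
    intro ρ C x
    unfold Pool.Agent.TH270.MS.EQ.dev
    rw [P_eq]
  have pp : ∀ ρ C x : ℝ, 0 < C → 1 < x → 0 < P a b x / (C * Real.log x ^ ρ) := by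
    intro ρ C x hC hx
    have h1 : 0 < C * Real.log x ^ ρ := mul_pos hC (Real.rpow_pos_of_pos (Real.log_pos hx) _)
    have h2 := P_pos (a := a) (b := b) x
    positivity
  have e3 : ∀ x : ℝ, P a b x / (T F m * Real.log x ^ m) =
      P a b x / (T F m * Real.log x ^ (m : ℝ)) := fun x => by rw [Real.rpow_natCast]
  refine ⟨m, hm, hT, fun δ hδ => ⟨fun K => ?_, fun hreal K => ?_, fun ρ C hC K => ?_⟩⟩
  · refine every hδ fun δ1 h0 h1 => ?_
    refine ((Pool.Agent.NH98.EW.lead_w hΔ hF' (hecke hf) (belongs hf) (fricke hf) hm h0 h1).1 K).imp h1 ?_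
    filter_upwards [eventually_gt_atTop 1] with x hx h2
    rw [e3]
    refine quot_up (pp m _ x hT hx) ?_ (Real.log_pos hx)
    rw [hd]
    exact h2
  · refine every hδ fun δ1 h0 h1 => ?_
    refine ((Pool.Agent.NH98.EW.lead_w hΔ hF' (hecke hf) (belongs hf) (fricke hf) hm h0 h1).2 hreal
      (2 * |K|)).imp h1 ?_
    filter_upwards [eventually_gt_atTop 1, Real.tendsto_log_atTop.eventually_gt_atTop (2 * |K|)] with x hx h3 h2
    rw [e3]
    refine quot_down (pp m _ x hT hx) ?_ h3 (Real.log_pos hx)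
    rw [hd]
    exact h2
  · refine every hδ fun δ1 h0 h1 => ?_
    refine (Pool.Agent.NH98.EW.all_w hΔ hF' (hecke hf) (belongs hf) (fricke hf) hm (hyp hΔ hf hF hm) h0 h1
      ρ hC (2 * |K|)).imp h1 ?_
    filter_upwards [eventually_gt_atTop 1, Real.tendsto_log_atTop.eventually_gt_atTop (2 * |K|)] with x hx h3 h2
    refine quot_abs (pp ρ C x hC hx) ?_ h3 (Real.log_pos hx)
    rw [hd]
    exact h2

end Pool.Agent.Results.MP_3283e1_nt.EveryWindowRate
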