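import Pool.Agent.NH22.BS.All2

/-!
# Below a power of the height the product of Birch and Swinnerton-Dyer is a geometric Brownian motion

Let `P(t)` be the product of `N_p / p` over the primes `p ≤ t` of good reduction of the curve `y ^ 2 = x ^ 3 + m 1 * x + m 0`.
We consider the curves the coefficients of which arise from arbitrary integers by changing a few digits at arbitrary places in an
arbitrary base, and show that, as long as `x` stays below a small power of the height, the process
`log P(x ^ s) - log P(x)`, `s ≥ 1`, has asymptotically the finite dimensional distributions of `(log s) / 2 + W(log s)`, with a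
standard Brownian motion `W`.

Proof. The linear combinations of the increments are sums of functions of the coefficients modulo the primes in the windows. Their
moments over the changes of digits are asymptotically those for independent random residues, and these are nearly Gaussian, with
the mean and the variance given by the theorem of Mertens and by the average of `a_p ^ 2` over the curves modulo `p`.
-/

set_option autoImplicit false

namespace Pool.Agent.Results.MP_3283e1_nt.LognormalIncrements

open Finset ProbabilityTheory

/-- The number of the points modulo `p` of the curve `y ^ 2 = x ^ 3 + m 1 * x + m 0`, with the point at infinity. -/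
noncomputable def points (p : ℕ) (m : Fin 2 → ℕ) : ℕ :=
  Nat.card {P : ZMod p × ZMod p // P.2 ^ 2 = P.1 ^ 3 + (m 1 : ZMod p) * P.1 + (m 0 : ZMod p)} + 1

/-- `p` is a prime which does not divide `2 (4 a ^ 3 + 27 b ^ 2)`, `a = m 1`, `b = m 0`. -/
def Good (p : ℕ) (m : Fin 2 → ℕ) : Prop := p.Prime ∧ ¬ p ∣ 2 * (4 * m 1 ^ 3 + 27 * m 0 ^ 2)

open Classical in
/-- The product of Birch and Swinnerton-Dyer: the product of `N_p / p` over the good primes `p ≤ t`. -/
noncomputable def product (m : Fin 2 → ℕ) (t : ℕ) : ℝ :=
  ∏ p ∈ (range (t + 1)).filter (fun p => Good p m), (points p m : ℝ) / p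

/-- The linear combination with the coefficients `lam i`, `i < k`, of the logarithms of the quotients of the product at
`x ^ M (i + 1)` and at `x ^ M i`. -/
noncomputable def increments (x k : ℕ) (M : ℕ → ℕ) (lam : ℕ → ℝ) (m : Fin 2 → ℕ) : ℝ :=
  ∑ i ∈ range k, lam i * Real.log (product m (x ^ M (i + 1)) / product m (x ^ M i))

/-- The expectation of `∑ lam i * (B (M (i + 1)) - B (M i))` for `B s = (log s) / 2 + W (log s)`, `W` a standard Brownian motion. -/
noncomputable def expectation (k : ℕ) (M : ℕ → ℕ) (lam : ℕ → ℝ) : ℝ :=
  ∑ i ∈ range k, lam i * (Real.log (M (i + 1) / M i) / 2)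

/-- Its variance. -/
noncomputable def variation (k : ℕ) (M : ℕ → ℕ) (lam : ℕ → ℝ) : ℝ :=
  ∑ i ∈ range k, lam i ^ 2 * Real.log (M (i + 1) / M i)

/-- The digit number `i` (counted from the right, beginning with `0`) of `n` in base `b`. -/
def digit (b i n : ℕ) : ℕ := n / b ^ i % b

/-- The number which arises from the number `N` with at most `K` digits in base `b`, if for every `i ∈ S`
the digit number `i` is replaced by `f i`. -/
def change (b K N : ℕ) (f : ℕ → ℕ) (S : Finset ℕ) : ℕ :=
  ∑ i ∈ range K, (if i ∈ S then f i else digit b i N) * b ^ i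

open Classical in
/-- The proportion of the choices of `r l` of `K l` positions for all `l` for which the vector of the numbers obtained by
changing the digits of the `N l` at the chosen positions (according to `f l`) has the property `E`. -/
noncomputable def proportion {d : ℕ} (b : ℕ) (K r N : Fin d → ℕ) (f : Fin d → ℕ → ℕ) (E : (Fin d → ℕ) → Prop) : ℝ :=
  (((Fintype.piFinset (fun l => powersetCard (r l) (range (K l)))).filter
    (fun S => E (fun l => change b (K l) (N l) (f l) (S l)))).card : ℝ) / ∏ l, ((K l).choose (r l) : ℝ)

lemma product_eq (m : Fin 2 → ℕ) (t : ℕ) : product m t = Pool.Agent.NH22.BS.PP m t := by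
  unfold product Pool.Agent.NH22.BS.PP
  refine prod_congr rfl fun p _ => ?_
  unfold points Pool.Agent.NH22.BS.pts
  push_cast
  rfl

lemma product_pos (m : Fin 2 → ℕ) (t : ℕ) : 0 < product m t := by
  classical
  unfold product
  refine prod_pos fun p hp => ?_
  replace hp := mem_filter.1 hp
  have h1 : (0 : ℝ) < p := by exact_mod_cast hp.2.1.pos
  have h2 : (0 : ℝ) < points p m := by
    unfold points
    exact_mod_cast Nat.succ_pos _
  positivity

/-- Let `b ≥ 2`, let `1 ≤ M 0 < M 1 < …` be integers, `lam i` (`i < k`) real numbers, not all `0`, and `ε > 0`. There are `c > 0` and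
`x₀` with the following property. Let `r l`, `K l` (`l = 0, 1`) and `x` be integers with `2 r l ≤ K l` and `x₀ ≤ x ≤ exp (c r l)`.
Let `0 ≤ N l < b ^ K l` be arbitrary integers and prescribe for every position `j` a digit `f l j` different from the digit of
`N l` in base `b`. Choose `r l` of the `K l` positions and replace the digits of `N l` at these positions; this gives a number
`m l`. Let `P(t)` be the product of Birch and Swinnerton-Dyer of the curve `y ^ 2 = x ^ 3 + m 1 * x + m 0`. Then the distribution
function of the linear combination `∑ lam i * log (P(x ^ M (i + 1)) / P(x ^ M i))` over the choices differs at every place by at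
most `ε` from that of the normal law with the expectation `∑ lam i * log (M (i + 1) / M i) / 2` and the variance
`∑ lam i ^ 2 * log (M (i + 1) / M i)`, which is the law of the same linear combination of the increments of
`(log s) / 2 + W (log s)`, `W` a standard Brownian motion. -/
theorem result (b k : ℕ) (M : ℕ → ℕ) (lam : ℕ → ℝ) (ε : ℝ) (hb : 2 ≤ b) (hM0 : 1 ≤ M 0) (hM : StrictMono M)
    (hε : 0 < ε) (hlam : ∃ i < k, lam i ≠ 0) :
    ∃ c : ℝ, 0 < c ∧ ∃ x₀ : ℕ, ∀ (K r : Fin 2 → ℕ) (x : ℕ), (∀ l, 2 * r l ≤ K l) → x₀ ≤ x →
      (∀ l, (x : ℝ) ≤ Real.exp (c * r l)) → ∀ N : Fin 2 → ℕ, (∀ l, N l < b ^ K l) →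
      ∀ f : Fin 2 → ℕ → ℕ, (∀ l j, f l j < b ∧ f l j ≠ digit b j (N l)) → ∀ z : ℝ,
      |proportion b K r N f (fun m => increments x k M lam m ≤ expectation k M lam + z * Real.sqrt (variation k M lam)) -
        (gaussianReal 0 1).real (Set.Iic z)| ≤ ε := by
  classical
  obtain ⟨c, hc, x₀, h⟩ := Pool.Agent.NH22.BS.All2.main b k M lam ε hb hM0 hM hε hlam
  have hMi : ∀ i, (0 : ℝ) < M i := fun i => by
    have : 1 ≤ M i := hM0.trans (hM.monotone (Nat.zero_le i))
    exact_mod_cast this
  have hE : expectation k M lam = Pool.Agent.NH22.BS.F5.av k M lam := by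
    unfold expectation Pool.Agent.NH22.BS.F5.av
    refine sum_congr rfl fun i _ => ?_
    rw [Real.log_div (hMi (i + 1)).ne' (hMi i).ne']
    ring
  have hV : variation k M lam = Pool.Agent.NH22.BS.F5.vv k M lam := by
    unfold variation Pool.Agent.NH22.BS.F5.vv
    refine sum_congr rfl fun i _ => ?_
    rw [Real.log_div (hMi (i + 1)).ne' (hMi i).ne']
  have hI : ∀ (x : ℕ) (m : Fin 2 → ℕ), increments x k M lam m = Pool.Agent.NH22.BS.F5.stat x k M lam m := by
    intro x m
    unfold increments Pool.Agent.NH22.BS.F5.stat
    refine sum_congr rfl fun i _ => ?_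
    rw [Real.log_div (product_pos m _).ne' (product_pos m _).ne', product_eq, product_eq]
  refine ⟨c, hc, x₀, fun K r x hrK hx hxr N hN f hf z => ?_⟩
  have h1 := h K r x hrK hx hxr N hN f hf z
  unfold proportion
  simp only [hE, hV, hI]
  convert h1 using 5
  apply congrArg Finset.card
  ext S
  simp only [mem_filter]
  exact Iff.rfl

end Pool.Agent.Results.MP_3283e1_nt.LognormalIncrements
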