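import Pool.Agent.NH4.XH.Fin
import Pool.Agent.NH4.XF.JL
import Pool.Agent.NH5.GF.Tw15
import Pool.Agent.NH5.GF.Win

/-!
# The original asymptotic of Birch and Swinnerton-Dyer for a positive proportion of the twists of `X_0(15)`

`E_D : y² = x³ - 12987 D² x - 263466 D³` is the quadratic twist by `D` of the curve `E_1 = X_0(15)`, which has
no complex multiplication. Let `P(x) = ∏_{p ≤ x, p ∤ 2Δ} #E_D(𝔽_p) / p` be the original product of Birch and
Swinnerton-Dyer and `F` the entire continuation of the Euler product over the same primes.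

Goldfeld (1982) showed for every modular elliptic curve that `P(x) ∼ C (log x)^ρ` implies the Riemann hypothesis
for `F` and that `ρ` is the order of `F` at `1`; in logarithmic mean the asymptotic formula is equivalent to the
Riemann hypothesis, with `ρ` the order (file `MeanSquareLaw`). The question is about the RANK of the group of
rational points. Here the rank part is settled, without any hypothesis, for a positive proportion of all the
quadratic twists, and even for any number of twists at the same time: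

* Let `g_1, …, g_k` be any different squarefree positive numbers such that `3` and `5` split in `ℚ(√g_t)`, and
  let `M` run through the squarefree numbers `M < 0` such that `3` splits and `5` is inert in `ℚ(√M)`, in the order
  of `|M|`. For the proportion `η^k` of these `M`, `η = ∏ (1 - 2^(-i)) = 0.2887…` (for the proportion
  `5/64 η^k` of ALL squarefree `M`), all the twists `E = E_{M g_1}, …, E_{M g_k}` have finitely many rational
  points, `Ш(E/ℚ)[2] = 0`, and the following properties.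
* `F(1) ≠ 0`; the only possible exponent of `log x` is the rank: if `P(x) ∼ C (log x)^ρ` for some real `ρ`
  and `C ≠ 0`, then `ρ = rank E(ℚ)`, `C = √2 / |F(1)|`, and the Riemann hypothesis is true for `F`. So the
  conjecture of Birch and Swinnerton-Dyer for `E` in its original form is equivalent to the existence of any
  asymptotic formula of this kind.
* In logarithmic mean (or mean square) the original conjecture for `E` is EQUIVALENT to the Riemann hypothesis for
  `F`: `P(x) ∼ C (log x)^ρ` in this sense if and only if `F` has no zeros with `Re s > 1`, `ρ = rank E(ℚ)` and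
  `C = √2 / |F(1)|`. The mean of `|log P(x) - ρ log log x|` is bounded if and only if `F` has no zeros with
  `Re s > 1` and `ρ = rank E(ℚ)`.
-/

set_option autoImplicit false

open Filter Topology

namespace Pool.Agent.Results.MP_3283e1_nt.MeanLawTwists

/-- coefficients of the twist `E_D : y² = x³ + A D x + B D` of `X_0(15)` -/
def A (D : ℤ) : ℤ := -12987 * D ^ 2

/-- coefficients of the twist `E_D : y² = x³ + A D x + B D` of `X_0(15)` -/
def B (D : ℤ) : ℤ := -263466 * D ^ 3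

/-- the curve `y² = x³ + a x + b` over `ℚ` -/
def curve (a b : ℤ) : WeierstrassCurve ℚ :=
  { a₁ := 0, a₂ := 0, a₃ := 0, a₄ := (a : ℚ), a₆ := (b : ℚ) }

/-- the rank of the group of the rational points of `y² = x³ + a x + b` -/
noncomputable def rank (a b : ℤ) : ℕ := Module.finrank ℤ (curve a b).toAffine.Point

/-- there are finitely many rational points, and `Ш` has no element of order two -/
def RankZeroShaTwo (a b : ℤ) : Prop :=
  Finite (curve a b).toAffine.Point ∧
    ∀ x : Pool.Agent.TH841.SH.D.Sha (curve a b), 2 • x = 0 → x = 0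

/-- `N_p`: the number of points of `y² = x³ + a x + b` modulo `p`, with the point at infinity. -/
noncomputable def numPoints (a b : ℤ) (p : ℕ) : ℕ :=
  Nat.card {q : ZMod p × ZMod p // q.2 ^ 2 = q.1 ^ 3 + (a : ZMod p) * q.1 + (b : ZMod p)} + 1

/-- `p` is a prime that does not divide `2 Δ`, where `Δ = -4 a³ - 27 b²`. -/
def GoodPrime (a b : ℤ) (p : ℕ) : Prop :=
  p.Prime ∧ ¬ ((p : ℤ) ∣ 2 * (-4 * a ^ 3 - 27 * b ^ 2))

open Classical in
/-- The original Birch and Swinnerton-Dyer product `P(x) = ∏_{p ≤ x, p ∤ 2Δ} N_p / p`. -/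
noncomputable def P (a b : ℤ) (x : ℝ) : ℝ :=
  ∏ p ∈ (Finset.range (⌊x⌋₊ + 1)).filter (GoodPrime a b), ((numPoints a b p : ℝ) / p)

open Classical in
/-- `F` is an entire function which for `Re s > 3/2` is the Euler product
`∏_{p ∤ 2Δ} (1 - a_p p^{-s} + p^{1-2s})⁻¹`, `a_p = p + 1 - N_p`, of `y² = x³ + a x + b`. -/
def IsLSeries (a b : ℤ) (F : ℂ → ℂ) : Prop :=
  Differentiable ℂ F ∧ ∀ s : ℂ, (3 : ℝ) / 2 < s.re →
    HasProd (fun p : ℕ => if GoodPrime a b p then
      (1 - ((p : ℂ) + 1 - (numPoints a b p : ℂ)) * (p : ℂ) ^ (-s) + (p : ℂ) ^ (1 - 2 * s))⁻¹ else 1)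
      (F s)

/-- The Riemann hypothesis for `F` (by the functional equation): no zeros to the right of the central
line `Re s = 1`. -/
def RH (F : ℂ → ℂ) : Prop := ∀ s : ℂ, 1 < s.re → F s ≠ 0

/-- `P(x) ∼ C (log x)^ρ` -/
def Asymp (a b : ℤ) (ρ C : ℝ) : Prop :=
  Tendsto (fun x : ℝ => P a b x / Real.log x ^ ρ) atTop (𝓝 C)

/-- Q1 for `y² = x³ + a x + b`: `P(x) ∼ C (log x)^r` for some `C > 0`, where `r` is the rank -/
def OriginalBSD (a b : ℤ) : Prop := ∃ C : ℝ, 0 < C ∧ Asymp a b (rank a b) C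

/-- `P(x) ∼ C (log x)^ρ` in logarithmic mean -/
def InMean (a b : ℤ) (ρ C : ℝ) : Prop :=
  Tendsto (fun X : ℝ => (∫ x in Real.exp 1..X,
    |Real.log (P a b x / (C * Real.log x ^ ρ))| / x) / Real.log X) atTop (𝓝 0)

/-- `P(x) ∼ C (log x)^ρ` in logarithmic mean square -/
def InMeanSquare (a b : ℤ) (ρ C : ℝ) : Prop :=
  Tendsto (fun X : ℝ => (∫ x in Real.exp 1..X,
    Real.log (P a b x / (C * Real.log x ^ ρ)) ^ 2 / x) / Real.log X) atTop (𝓝 0)

/-- the logarithmic mean of `|log P(x) - ρ log log x|` is bounded -/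
def BoundedMean (a b : ℤ) (ρ : ℝ) : Prop :=
  ∃ K : ℝ, ∀ᶠ X : ℝ in atTop, ∫ x in Real.exp 1..X,
    |Real.log (P a b x) - ρ * Real.log (Real.log x)| / x ≤ K * Real.log X

/-- **The rank part of Q1 is true for `y² = x³ + a x + b`**: the curve is elliptic, it has an entire
`L`-series `F` with `F(1) ≠ 0`; the exponent of an asymptotic formula for `P` can only be the rank, and Q1 is
equivalent to the existence of an asymptotic formula; in logarithmic mean (square) the formula with the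
exponent `ρ` is equivalent to: Riemann hypothesis, `ρ` is the rank, `C = √2 / |F(1)|`. -/
def RankPart (a b : ℤ) : Prop :=
  4 * a ^ 3 + 27 * b ^ 2 ≠ 0 ∧ ∃ F : ℂ → ℂ, IsLSeries a b F ∧ F 1 ≠ 0 ∧
    (∀ ρ C : ℝ, C ≠ 0 → Asymp a b ρ C → ρ = rank a b ∧ C = √2 / ‖F 1‖ ∧ RH F) ∧
    (OriginalBSD a b ↔ ∃ ρ C : ℝ, C ≠ 0 ∧ Asymp a b ρ C) ∧
    (∀ ρ C : ℝ, 0 < C → List.TFAE [RH F ∧ ρ = rank a b ∧ C = √2 / ‖F 1‖,
      InMean a b ρ C, InMeanSquare a b ρ C]) ∧
    ∀ ρ : ℝ, (RH F ∧ ρ = rank a b) ↔ BoundedMean a b ρ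

/-- the two properties together, for the twist by `D` -/
def Good (D : ℤ) : Prop := RankZeroShaTwo (A D) (B D) ∧ RankPart (A D) (B D)

/-- The class group of the quadratic field `ℚ(√D)` has no element of order four. -/
def NoFour (D : ℤ) : Prop := ∀ (K : Type) [Field K] [NumberField K], Module.finrank ℚ K = 2 →
  (∃ a : K, a ^ 2 = (D : K)) →
  ∀ c : ClassGroup (NumberField.RingOfIntegers K), c ^ 4 = 1 → c ^ 2 = 1

/-- the class of the numbers `M` -/
def InClass (M : ℤ) : Prop := Squarefree M ∧ M < 0 ∧ M % 3 = 1 ∧ (M % 5 = 2 ∨ M % 5 = 3)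

/-- the numbers `g_t` -/
def IsShift (g : ℤ) : Prop := Squarefree g ∧ 0 < g ∧ g % 3 = 1 ∧ (g % 5 = 1 ∨ g % 5 = 4)

open Classical in
/-- the number of the squarefree integers `M`, `|M| ≤ X`, with the property `Q` -/
noncomputable def count (Q : ℤ → Prop) (X : ℕ) : ℝ :=
  (((Finset.Icc (-(X : ℤ)) X).filter fun M : ℤ => Squarefree M ∧ Q M).card : ℝ)

/-- the constant `η` -/
noncomputable def eta : ℝ := ∏' i : ℕ, (1 - (1 / 2 : ℝ) ^ (i + 1))

section translate

variable {a b : ℤ}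

theorem P_eq (x : ℝ) : P a b x = Pool.Agent.W263.BSD.bsdProduct a b x := by
  unfold P Pool.Agent.W263.BSD.bsdProduct numPoints Pool.Agent.W263.BSD.pointCount
  refine Finset.prod_congr rfl fun p _ => ?_
  push_cast
  rfl

theorem numPoints_sub (p : ℕ) : (p : ℂ) + 1 - (numPoints a b p : ℂ) =
    (p : ℂ) - (Pool.Agent.W263.BSD.pointCount a b p : ℂ) := by
  unfold numPoints Pool.Agent.W263.BSD.pointCount
  push_cast
  ring

theorem isLSeries_iff {F : ℂ → ℂ} : IsLSeries a b F ↔ Pool.Agent.W263.BSD.IsLSeries a b F := by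
  unfold IsLSeries Pool.Agent.W263.BSD.IsLSeries
  simp only [numPoints_sub]
  exact Iff.rfl

theorem isLSeries_of {F : ℂ → ℂ} (h : Pool.Agent.Y19.QT.IsLFun a b F) :
    Pool.Agent.W263.BSD.IsLSeries a b F := by
  refine ⟨h.1, fun s hs => ?_⟩
  refine Eq.mp (congrArg (fun u : ℕ → ℂ => HasProd u (F s)) (funext fun p => ?_)) (h.2 s hs)
  by_cases hp : p.Prime ∧ ¬ ((p : ℤ) ∣ 2 * (-4 * a ^ 3 - 27 * b ^ 2))
  · exact (if_pos hp).trans (if_pos (c := Pool.Agent.W263.BSD.GoodPrime a b p) hp).symm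
  · exact (if_neg hp).trans (if_neg (c := Pool.Agent.W263.BSD.GoodPrime a b p) hp).symm

/-- the properties for a curve of rank zero with a newform and `L(E, 1) ≠ 0` -/
theorem rankPart_of (hΔ : 4 * a ^ 3 + 27 * b ^ 2 ≠ 0)
    (h : ∃ (N : ℕ) (f : CuspForm (CongruenceSubgroup.Gamma0 N : Subgroup (Matrix.GeneralLinearGroup (Fin 2) ℝ)) 2),
      Pool.Agent.Y19.QT.IsFormOf a b N f)
    (hr : rank a b = 0) {F : ℂ → ℂ} (hF : Pool.Agent.W263.BSD.IsLSeries a b F) (h1 : F 1 ≠ 0) :
    RankPart a b := by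
  obtain ⟨q1, q2, q3⟩ := Pool.Agent.NH5.GF.laws hΔ h hF h1
  have hr' : ((rank a b : ℕ) : ℝ) = 0 := by rw [hr, Nat.cast_zero]
  have hP : ∀ x : ℝ, P a b x = Pool.Agent.W263.BSD.bsdProduct a b x := P_eq
  have g3 : ∀ ρ C : ℝ, C ≠ 0 → Asymp a b ρ C → ρ = rank a b ∧ C = √2 / ‖F 1‖ ∧ RH F := by
    intro ρ C hC hA
    unfold Asymp at hA
    simp only [hP] at hA
    obtain ⟨e1, e2, e3⟩ := q3 ρ C hC hA
    exact ⟨by rw [e2, hr'], e3, e1⟩
  have hF0 : 0 < ‖F 1‖ := norm_pos_iff.2 h1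
  refine ⟨hΔ, F, isLSeries_iff.2 hF, h1, g3, ?_, ?_, ?_⟩
  · constructor
    · rintro ⟨C, hC, hA⟩
      exact ⟨_, C, hC.ne', hA⟩
    · rintro ⟨ρ, C, hC, hA⟩
      obtain ⟨e1, e2, -⟩ := g3 ρ C hC hA
      refine ⟨C, ?_, ?_⟩
      · rw [e2]
        positivity
      · rw [← e1]
        exact hA
  · intro ρ C hC
    have t := q1 ρ C hC
    unfold InMean InMeanSquare
    simp only [hP, hr']
    exact t
  · intro ρ
    unfold BoundedMean
    simp only [hP, hr']
    exact q2 ρ

end translate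

section proof

open Pool.Agent.NH4 Pool.Agent.NH4.XH Pool.Agent.XV.T
open Pool.Agent.NH4.XF (cz cz_congr' patterns rz_scale)

theorem rankZero_iff (D : ℤ) : RankZeroShaTwo (A D) (B D) ↔ RZ D := by
  unfold RankZeroShaTwo RZ
  refine and_congr Iff.rfl (forall_congr' fun x => ?_)
  rw [two_nsmul]
  rfl

theorem rank_zero {a b : ℤ} (h : RankZeroShaTwo a b) : rank a b = 0 := by
  have := h.1
  unfold rank
  exact Module.finrank_eq_zero_of_rank_eq_zero (rank_eq_zero_iff.2 fun P => by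
    obtain ⟨n, hn, hP⟩ := isOfFinAddOrder_iff_nsmul_eq_zero.1 (isOfFinAddOrder_of_finite P)
    exact ⟨n, by exact_mod_cast hn.ne', by rw [natCast_zsmul]; exact hP⟩)

theorem part_of {D : ℤ} (hD : D ≠ 0) (hr : RankZeroShaTwo (A D) (B D))
    (h : Pool.Agent.Y687.MQ.ZB (-12987 * D ^ 2) (-263466 * D ^ 3)) : RankPart (A D) (B D) := by
  obtain ⟨⟨F, hF, hF1⟩, -⟩ := h
  have hF' : F 1 ≠ 0 := by
    have hd : Differentiable ℂ F := hF.1
    exact ((hd.analyticAt 1).analyticOrderAt_eq_zero).1 hF1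
  refine rankPart_of ?_ (Pool.Agent.NH5.GF.twists15 D hD) (rank_zero hr) (F := F) ?_ hF'
  · have e : 4 * A D ^ 3 + 27 * B D ^ 2 = -6887475360000 * D ^ 6 := by
      unfold A B
      ring
    rw [e]
    exact mul_ne_zero (by norm_num) (pow_ne_zero 6 hD)
  · exact isLSeries_of hF

theorem noFour_scale {D k : ℤ} (hk : k ≠ 0) : NoFour (D * k ^ 2) ↔ NoFour D := by
  unfold NoFour
  refine forall_congr' fun K => forall_congr' fun _ => forall_congr' fun _ => forall_congr' fun _ =>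
    imp_congr ?_ Iff.rfl
  have hkK : (k : K) ≠ 0 := by exact_mod_cast hk
  constructor
  · rintro ⟨a, ha⟩
    refine ⟨a / k, ?_⟩
    rw [div_pow, ha]
    push_cast
    field_simp
  · rintro ⟨a, ha⟩
    refine ⟨a * k, ?_⟩
    rw [mul_pow, ha]
    push_cast
    rfl

theorem isA_of {g : ℤ} (h : IsShift g) : IsA g :=
  ⟨g, 1, ⟨h.2.1, h.1, h.2.2⟩, one_ne_zero, by ring⟩

theorem db_of_class {M : ℤ} (h : InClass M) : DB M := ⟨h.2.1, h.1, h.2.2⟩

/-- the criterion and the law for one twist -/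
theorem one (h : S_HOUT) {M g : ℤ} (hM : InClass M) (hg : IsShift g) :
    (RankZeroShaTwo (A (M * g)) (B (M * g)) ↔ NoFour (M * g)) ∧
    (RankZeroShaTwo (A (M * g)) (B (M * g)) → RankPart (A (M * g)) (B (M * g))) := by
  obtain ⟨D, k, h1, -, h2, h3⟩ := (upB_self (db_of_class hM)).mul_A (isA_of hg)
  have hM0 : M * g ≠ 0 := mul_ne_zero hM.2.1.ne hg.2.1.ne'
  refine ⟨?_, fun h4 => part_of hM0 h4 ?_⟩
  · rw [rankZero_iff, h3, noFour_scale h2, rz_scale h1.1.ne h2, rz_noFour h1]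
    exact Iff.rfl
  · rw [rankZero_iff, h3, rz_scale h1.1.ne h2] at h4
    rw [h3]
    exact Pool.Agent.Y687.MQ.ZB_scale (by norm_num) h1.1.ne h2 (zb_of h h1 h4)

theorem not_square {g g' : ℤ} (h : IsShift g) (h' : IsShift g') (hne : g ≠ g') :
    ¬ IsSquare (g * g') := by
  rintro ⟨r, hr⟩
  apply hne
  have hr0 : r ≠ 0 := by
    rintro rfl
    have := mul_pos h.2.1 h'.2.1
    omega
  refine PF.sqf_unique h.1 h'.1 (k := g') (k' := r) h'.2.1.ne' hr0 ?_
  linear_combination g' * hr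

theorem law (h : S_HOUT) {k : ℕ} {g : Fin (k + 1) → ℤ} (hg : ∀ t, IsShift (g t))
    (hi : Function.Injective g) :
    Tendsto (fun X : ℕ => cz (fun M => InClass M ∧ ∀ t, Good (M * g t)) X / cz InClass X) atTop
        (𝓝 (eta ^ (k + 1))) ∧
      Tendsto (fun X : ℕ => cz (fun M => InClass M ∧ ∀ t, Good (M * g t)) X /
        cz (fun _ => True) X) atTop (𝓝 (5 / 64 * eta ^ (k + 1))) := by
  have h1 := joint_zero XG.f_XGDEN h (ι := Fin (k + 1)) (g := g) (fun t => isA_of (hg t))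
    (fun t t' hne => not_square (hg t) (hg t') fun e => hne (hi e))
  rw [Fintype.card_fin] at h1
  have e1 : ∀ X : ℕ, cz (fun M => (M < 0 ∧ M % 3 = 1 ∧ (M % 5 = 2 ∨ M % 5 = 3)) ∧
      ∀ t : Fin (k + 1), RZ (M * g t)) X = cz (fun M => InClass M ∧ ∀ t, Good (M * g t)) X := by
    refine fun X => cz_congr' (fun M hM => ?_) X
    constructor
    · rintro ⟨h2, h3⟩
      have hc : InClass M := ⟨hM, h2⟩
      refine ⟨hc, fun t => ?_⟩
      have h4 := (rankZero_iff _).2 (h3 t)
      exact ⟨h4, (one h hc (hg t)).2 h4⟩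
    · rintro ⟨h2, h3⟩
      exact ⟨h2.2, fun t => (rankZero_iff _).1 (h3 t).1⟩
  have e2 : ∀ X : ℕ, cz (fun M => M < 0 ∧ M % 3 = 1 ∧ (M % 5 = 2 ∨ M % 5 = 3)) X = cz InClass X :=
    fun X => cz_congr' (fun M hM => ⟨fun h2 => ⟨hM, h2⟩, fun h2 => h2.2⟩) X
  simp only [e1, e2] at h1
  exact h1

end proof

/-- **Main theorem.** -/
theorem result :
    (∀ M g : ℤ, InClass M → IsShift g →
      (RankZeroShaTwo (A (M * g)) (B (M * g)) ↔ NoFour (M * g)) ∧
      (RankZeroShaTwo (A (M * g)) (B (M * g)) → RankPart (A (M * g)) (B (M * g)))) ∧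
    (∀ (k : ℕ) (g : Fin (k + 1) → ℤ), (∀ t, IsShift (g t)) → Function.Injective g →
      Tendsto (fun X : ℕ => count (fun M => InClass M ∧ ∀ t, Good (M * g t)) X /
        count InClass X) atTop (𝓝 (eta ^ (k + 1))) ∧
      Tendsto (fun X : ℕ => count (fun M => InClass M ∧ ∀ t, Good (M * g t)) X /
        count (fun _ => True) X) atTop (𝓝 (5 / 64 * eta ^ (k + 1)))) ∧
    0.2887 < eta ∧ eta < 0.2888 := by
  have h : Pool.Agent.NH4.XH.S_HOUT := Pool.Agent.NH4.XH.f_HOUT
  exact ⟨fun M g hM hg => one h hM hg, fun k g hg hi => law h hg hi,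
    Pool.Agent.NH5.PR.t_ETA.2.2.2.1, Pool.Agent.NH5.PR.t_ETA.2.2.2.2⟩

end Pool.Agent.Results.MP_3283e1_nt.MeanLawTwists
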