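import Pool.Agent.NH5.PR.Trl
import Pool.Agent.Y812.TM.Four
import Pool.Agent.NH5.GF.Win

/-!
# The original asymptotic of Birch and Swinnerton-Dyer for the twists of `X_0(14)`: all types of primes

`C_D : y² = x³ + 5805 D² x - 285714 D³` is the quadratic twist by `D` of the curve `C_1 = X_0(14)`, which has
no complex multiplication. Let `P(x) = ∏_{p ≤ x, p ∤ 2Δ} #C_D(𝔽_p) / p` be the original product of Birch and
Swinnerton-Dyer and `F` the entire continuation of the Euler product over the same primes.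

Goldfeld (1982) showed for every modular elliptic curve that `P(x) ∼ C (log x)^ρ` implies the Riemann hypothesis
for `F` and that `ρ` is the order of `F` at `1`; in logarithmic mean the asymptotic formula is equivalent to the
Riemann hypothesis, with `ρ` the order (file `MeanSquareLaw`). The question is about the RANK of the group of
rational points. Here the rank part is settled, without any hypothesis, in the complete minimal case: `D ≠ 1` is any
squarefree integer, positive or negative, `D ≡ 1 mod 4`, prime to `7`, with `nB ≤ nA`, where `nA` is the number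
of the prime factors of `D` which are split in `ℚ(√2)` and inert in `ℚ(√-7)`, and `nB` is the number of those which
are inert in `ℚ(√2)` and split in `ℚ(√-7)`. There is no other restriction on the prime factors. If `C_D(ℚ)` is
finite and `Ш(C_D/ℚ)[2] = 0`, then:

* `F(1) ≠ 0`; the only possible exponent of `log x` is the rank: if `P(x) ∼ C (log x)^ρ` for some real `ρ`
  and `C ≠ 0`, then `ρ = rank C_D(ℚ)`, `C = √2 / |F(1)|`, and the Riemann hypothesis is true for `F`. So the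
  conjecture of Birch and Swinnerton-Dyer for `C_D` in its original form is equivalent to the existence of any
  asymptotic formula of this kind.
* In logarithmic mean (or mean square) the original conjecture for `C_D` is EQUIVALENT to the Riemann hypothesis
  for `F`: `P(x) ∼ C (log x)^ρ` in this sense if and only if `F` has no zeros with `Re s > 1`, `ρ = rank C_D(ℚ)`
  and `C = √2 / |F(1)|`. The mean of `|log P(x) - ρ log log x|` is bounded if and only if `F` has no zeros with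
  `Re s > 1` and `ρ = rank C_D(ℚ)`.

In the class of all these `D` with `nA = nB`, which contains at least `c X / √(log log X)` of the integers up to `X`,
exactly the proportion `η = ∏ (1 - 2^(-i)) = 0.2887…` has these properties, in the order of `|D|`; also for the
positive, for the negative `D`, for the `D` in any set of odd residue classes modulo `8`, and for those which are
prime to any given integer `m`. (For the twists of `X_0(15)` see `MeanLawTwists`.)
-/

set_option autoImplicit false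

open Filter Topology

namespace Pool.Agent.Results.MP_3283e1_nt.MeanLawX14

/-- coefficients of the twist `C_D : y² = x³ + A D x + B D` of `X_0(14)` -/
def A (D : ℤ) : ℤ := 5805 * D ^ 2

/-- coefficients of the twist `C_D : y² = x³ + A D x + B D` of `X_0(14)` -/
def B (D : ℤ) : ℤ := -285714 * D ^ 3

/-- the curve `y² = x³ + a x + b` over `ℚ` -/
def curve (a b : ℤ) : WeierstrassCurve ℚ :=
  { a₁ := 0, a₂ := 0, a₃ := 0, a₄ := (a : ℚ), a₆ := (b : ℚ) }

/-- the rank of the group of the rational points of `y² = x³ + a x + b` -/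
noncomputable def rank (a b : ℤ) : ℕ := Module.finrank ℤ (curve a b).toAffine.Point

/-- there are finitely many rational points, and `Ш` has no element of order two -/
def RankZeroShaTwo (a b : ℤ) : Prop :=
  Finite (curve a b).toAffine.Point ∧
    ∀ x : Pool.Agent.TH841.SH.D.Sha (curve a b), 2 • x = 0 → x = 0

/-- `N_p`: the number of points of `y² = x³ + a x + b` modulo `p`, with the point at infinity. -/
noncomputable def numPoints (a b : ℤ) (p : ℕ) : ℕ :=
  Nat.card {q : ZMod p × ZMod p // q.2 ^ 2 = q.1 ^ 3 + (a : ZMod p) * q.1 + (b : ZMod p)} + 1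

/-- `p` is a prime that does not divide `2 Δ`, where `Δ = -4 a³ - 27 b²`. -/
def GoodPrime (a b : ℤ) (p : ℕ) : Prop :=
  p.Prime ∧ ¬ ((p : ℤ) ∣ 2 * (-4 * a ^ 3 - 27 * b ^ 2))

open Classical in
/-- The original Birch and Swinnerton-Dyer product `P(x) = ∏_{p ≤ x, p ∤ 2Δ} N_p / p`. -/
noncomputable def P (a b : ℤ) (x : ℝ) : ℝ :=
  ∏ p ∈ (Finset.range (⌊x⌋₊ + 1)).filter (GoodPrime a b), ((numPoints a b p : ℝ) / p)

open Classical in
/-- `F` is an entire function which for `Re s > 3/2` is the Euler product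
`∏_{p ∤ 2Δ} (1 - a_p p^{-s} + p^{1-2s})⁻¹`, `a_p = p + 1 - N_p`, of `y² = x³ + a x + b`. -/
def IsLSeries (a b : ℤ) (F : ℂ → ℂ) : Prop :=
  Differentiable ℂ F ∧ ∀ s : ℂ, (3 : ℝ) / 2 < s.re →
    HasProd (fun p : ℕ => if GoodPrime a b p then
      (1 - ((p : ℂ) + 1 - (numPoints a b p : ℂ)) * (p : ℂ) ^ (-s) + (p : ℂ) ^ (1 - 2 * s))⁻¹ else 1)
      (F s)

/-- The Riemann hypothesis for `F` (by the functional equation): no zeros to the right of the central
line `Re s = 1`. -/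
def RH (F : ℂ → ℂ) : Prop := ∀ s : ℂ, 1 < s.re → F s ≠ 0

/-- `P(x) ∼ C (log x)^ρ` -/
def Asymp (a b : ℤ) (ρ C : ℝ) : Prop :=
  Tendsto (fun x : ℝ => P a b x / Real.log x ^ ρ) atTop (𝓝 C)

/-- Q1 for `y² = x³ + a x + b`: `P(x) ∼ C (log x)^r` for some `C > 0`, where `r` is the rank -/
def OriginalBSD (a b : ℤ) : Prop := ∃ C : ℝ, 0 < C ∧ Asymp a b (rank a b) C

/-- `P(x) ∼ C (log x)^ρ` in logarithmic mean -/
def InMean (a b : ℤ) (ρ C : ℝ) : Prop :=
  Tendsto (fun X : ℝ => (∫ x in Real.exp 1..X,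
    |Real.log (P a b x / (C * Real.log x ^ ρ))| / x) / Real.log X) atTop (𝓝 0)

/-- `P(x) ∼ C (log x)^ρ` in logarithmic mean square -/
def InMeanSquare (a b : ℤ) (ρ C : ℝ) : Prop :=
  Tendsto (fun X : ℝ => (∫ x in Real.exp 1..X,
    Real.log (P a b x / (C * Real.log x ^ ρ)) ^ 2 / x) / Real.log X) atTop (𝓝 0)

/-- the logarithmic mean of `|log P(x) - ρ log log x|` is bounded -/
def BoundedMean (a b : ℤ) (ρ : ℝ) : Prop :=
  ∃ K : ℝ, ∀ᶠ X : ℝ in atTop, ∫ x in Real.exp 1..X,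
    |Real.log (P a b x) - ρ * Real.log (Real.log x)| / x ≤ K * Real.log X

/-- **The rank part of Q1 is true for `y² = x³ + a x + b`**: the curve is elliptic, it has an entire
`L`-series `F` with `F(1) ≠ 0`; the exponent of an asymptotic formula for `P` can only be the rank, and Q1 is
equivalent to the existence of an asymptotic formula; in logarithmic mean (square) the formula with the
exponent `ρ` is equivalent to: Riemann hypothesis, `ρ` is the rank, `C = √2 / |F(1)|`. -/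
def RankPart (a b : ℤ) : Prop :=
  4 * a ^ 3 + 27 * b ^ 2 ≠ 0 ∧ ∃ F : ℂ → ℂ, IsLSeries a b F ∧ F 1 ≠ 0 ∧
    (∀ ρ C : ℝ, C ≠ 0 → Asymp a b ρ C → ρ = rank a b ∧ C = √2 / ‖F 1‖ ∧ RH F) ∧
    (OriginalBSD a b ↔ ∃ ρ C : ℝ, C ≠ 0 ∧ Asymp a b ρ C) ∧
    (∀ ρ C : ℝ, 0 < C → List.TFAE [RH F ∧ ρ = rank a b ∧ C = √2 / ‖F 1‖,
      InMean a b ρ C, InMeanSquare a b ρ C]) ∧
    ∀ ρ : ℝ, (RH F ∧ ρ = rank a b) ↔ BoundedMean a b ρ

/-- the two properties together, for the twist by `D` -/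
def Good (D : ℤ) : Prop := RankZeroShaTwo (A D) (B D) ∧ RankPart (A D) (B D)

/-- the odd prime `p ≠ 7` is split in `ℚ(√2)`: `p ≡ ± 1 mod 8` -/
def Sq2 (p : ℕ) : Prop := p % 8 = 1 ∨ p % 8 = 7

instance (p : ℕ) : Decidable (Sq2 p) := by unfold Sq2; infer_instance

/-- the odd prime `p ≠ 7` is split in `ℚ(√-7)`: `p` is a square modulo `7` -/
def Sq7 (p : ℕ) : Prop := p % 7 = 1 ∨ p % 7 = 2 ∨ p % 7 = 4

instance (p : ℕ) : Decidable (Sq7 p) := by unfold Sq7; infer_instance

/-- the number of the prime factors of `D` which are split in `ℚ(√2)` and inert in `ℚ(√-7)` -/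
def nA (D : ℤ) : ℕ := (D.natAbs.primeFactors.filter fun p => Sq2 p ∧ ¬ Sq7 p).card

/-- the number of the prime factors of `D` which are inert in `ℚ(√2)` and split in `ℚ(√-7)` -/
def nB (D : ℤ) : ℕ := (D.natAbs.primeFactors.filter fun p => ¬ Sq2 p ∧ Sq7 p).card

/-- the numbers `D`, positive and negative -/
def Admissible (D : ℤ) : Prop := D ≠ 1 ∧ Squarefree D ∧ D % 4 = 1 ∧ ¬ (7 : ℤ) ∣ D ∧ nB D ≤ nA D

/-- the class of the numbers `D` with `nA D = nB D` -/
def InClass (D : ℤ) : Prop := D ≠ 1 ∧ Squarefree D ∧ D % 4 = 1 ∧ ¬ (7 : ℤ) ∣ D ∧ nA D = nB D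

open Classical in
/-- the number of the integers `D`, `|D| ≤ X`, with the property `Q` -/
noncomputable def count (Q : ℤ → Prop) (X : ℕ) : ℕ :=
  ((Finset.Icc (-(X : ℤ)) X).filter Q).card

/-- the constant `η` -/
noncomputable def eta : ℝ := ∏' i : ℕ, (1 - (1 / 2 : ℝ) ^ (i + 1))

section translate

variable {a b : ℤ}

theorem P_eq (x : ℝ) : P a b x = Pool.Agent.W263.BSD.bsdProduct a b x := by
  unfold P Pool.Agent.W263.BSD.bsdProduct numPoints Pool.Agent.W263.BSD.pointCount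
  refine Finset.prod_congr rfl fun p _ => ?_
  push_cast
  rfl

theorem numPoints_sub (p : ℕ) : (p : ℂ) + 1 - (numPoints a b p : ℂ) =
    (p : ℂ) - (Pool.Agent.W263.BSD.pointCount a b p : ℂ) := by
  unfold numPoints Pool.Agent.W263.BSD.pointCount
  push_cast
  ring

theorem isLSeries_iff {F : ℂ → ℂ} : IsLSeries a b F ↔ Pool.Agent.W263.BSD.IsLSeries a b F := by
  unfold IsLSeries Pool.Agent.W263.BSD.IsLSeries
  simp only [numPoints_sub]
  exact Iff.rfl

theorem isLSeries_of {F : ℂ → ℂ} (h : Pool.Agent.Y19.QT.IsLFun a b F) :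
    Pool.Agent.W263.BSD.IsLSeries a b F := by
  refine ⟨h.1, fun s hs => ?_⟩
  refine Eq.mp (congrArg (fun u : ℕ → ℂ => HasProd u (F s)) (funext fun p => ?_)) (h.2 s hs)
  by_cases hp : p.Prime ∧ ¬ ((p : ℤ) ∣ 2 * (-4 * a ^ 3 - 27 * b ^ 2))
  · exact (if_pos hp).trans (if_pos (c := Pool.Agent.W263.BSD.GoodPrime a b p) hp).symm
  · exact (if_neg hp).trans (if_neg (c := Pool.Agent.W263.BSD.GoodPrime a b p) hp).symm

/-- the properties for a curve of rank zero with a newform and `L(E, 1) ≠ 0` -/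
theorem rankPart_of (hΔ : 4 * a ^ 3 + 27 * b ^ 2 ≠ 0)
    (h : ∃ (N : ℕ) (f : CuspForm (CongruenceSubgroup.Gamma0 N : Subgroup (Matrix.GeneralLinearGroup (Fin 2) ℝ)) 2),
      Pool.Agent.Y19.QT.IsFormOf a b N f)
    (hr : rank a b = 0) {F : ℂ → ℂ} (hF : Pool.Agent.W263.BSD.IsLSeries a b F) (h1 : F 1 ≠ 0) :
    RankPart a b := by
  obtain ⟨q1, q2, q3⟩ := Pool.Agent.NH5.GF.laws hΔ h hF h1
  have hr' : ((rank a b : ℕ) : ℝ) = 0 := by rw [hr, Nat.cast_zero]
  have hP : ∀ x : ℝ, P a b x = Pool.Agent.W263.BSD.bsdProduct a b x := P_eq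
  have g3 : ∀ ρ C : ℝ, C ≠ 0 → Asymp a b ρ C → ρ = rank a b ∧ C = √2 / ‖F 1‖ ∧ RH F := by
    intro ρ C hC hA
    unfold Asymp at hA
    simp only [hP] at hA
    obtain ⟨e1, e2, e3⟩ := q3 ρ C hC hA
    exact ⟨by rw [e2, hr'], e3, e1⟩
  have hF0 : 0 < ‖F 1‖ := norm_pos_iff.2 h1
  refine ⟨hΔ, F, isLSeries_iff.2 hF, h1, g3, ?_, ?_, ?_⟩
  · constructor
    · rintro ⟨C, hC, hA⟩
      exact ⟨_, C, hC.ne', hA⟩
    · rintro ⟨ρ, C, hC, hA⟩
      obtain ⟨e1, e2, -⟩ := g3 ρ C hC hA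
      refine ⟨C, ?_, ?_⟩
      · rw [e2]
        positivity
      · rw [← e1]
        exact hA
  · intro ρ C hC
    have t := q1 ρ C hC
    unfold InMean InMeanSquare
    simp only [hP, hr']
    exact t
  · intro ρ
    unfold BoundedMean
    simp only [hP, hr']
    exact q2 ρ

end translate

section proof

open Pool.Agent.NH5.PR
open Pool.Agent.NH5.LK (NoSel)

theorem rankZero_iff (D : ℤ) : RankZeroShaTwo (A D) (B D) ↔ NoSel D := by
  unfold RankZeroShaTwo NoSel
  refine and_congr Iff.rfl (forall_congr' fun x => ?_)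
  rw [two_nsmul]
  rfl

theorem rank_zero {a b : ℤ} (h : RankZeroShaTwo a b) : rank a b = 0 := by
  have := h.1
  unfold rank
  exact Module.finrank_eq_zero_of_rank_eq_zero (rank_eq_zero_iff.2 fun P => by
    obtain ⟨n, hn, hP⟩ := isOfFinAddOrder_iff_nsmul_eq_zero.1 (isOfFinAddOrder_of_finite P)
    exact ⟨n, by exact_mod_cast hn.ne', by rw [natCast_zsmul]; exact hP⟩)

theorem count_eq (Q : ℤ → Prop) (X : ℕ) : count Q X = ct Q X := rfl

theorem inClass_iff (D : ℤ) : InClass D ↔ D ≠ 1 ∧ Bal D := Iff.rfl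

/-- the law for one twist -/
theorem part_of {D : ℤ} (h : Admissible D) (hr : RankZeroShaTwo (A D) (B D)) : RankPart (A D) (B D) := by
  obtain ⟨h1, hs, h4, h7, hc⟩ := h
  have hA : Pool.Agent.NH5.GD.Adm D := ⟨hs, h4, h7⟩
  obtain ⟨F, hd, hp, ho, -⟩ := Pool.Agent.NH5.LK.bsd_of hA h1 hc ((rankZero_iff D).1 hr)
  have hF' : F 1 ≠ 0 := by
    have hd' : Differentiable ℂ F := hd
    exact ((hd'.analyticAt 1).analyticOrderAt_eq_zero).1 ho
  refine rankPart_of (Pool.Agent.NH5.LK.disc_ne hA.n0) (Pool.Agent.Y812.TM.twists14 D hA.n0)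
    (rank_zero hr) (F := F) (isLSeries_of ⟨hd, fun s hs => ?_⟩) hF'
  refine Eq.mp (congrArg (fun u : ℕ → ℂ => HasProd u (F s)) (funext fun p => ?_)) (hp s hs)
  by_cases hq : p.Prime ∧ ¬ ((p : ℤ) ∣ 2 * (-4 * A D ^ 3 - 27 * B D ^ 2))
  · exact (if_pos hq).trans (if_pos hq).symm
  · exact (if_neg hq).trans (if_neg hq).symm

theorem adm_of {D : ℤ} (h : InClass D) : Admissible D :=
  ⟨h.1, h.2.1, h.2.2.1, h.2.2.2.1, h.2.2.2.2.ge⟩

end proof

open Pool.Agent.NH5.PR in
/-- **Main theorem.** -/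
theorem result :
    (∀ D : ℤ, Admissible D → RankZeroShaTwo (A D) (B D) → RankPart (A D) (B D)) ∧
    (0.2887 < eta ∧ eta < 0.2888) ∧
    ∀ (m : ℕ) (R : Finset ℕ), 0 < m → R.Nonempty → R ⊆ {1, 3, 5, 7} →
      Tendsto (fun X : ℕ =>
        (count (fun D => InClass D ∧ Int.gcd D m = 1 ∧ D.natAbs % 8 ∈ R ∧ Good D) X : ℝ) /
        (count (fun D => InClass D ∧ Int.gcd D m = 1 ∧ D.natAbs % 8 ∈ R) X : ℝ)) atTop (𝓝 eta) ∧
      ∃ (c : ℝ) (X₀ : ℕ), 0 < c ∧ ∀ X : ℕ, X₀ ≤ X → c * X / Real.sqrt (Real.log (Real.log X)) ≤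
        (count (fun D => InClass D ∧ Int.gcd D m = 1 ∧ D.natAbs % 8 ∈ R ∧ Good D) X : ℝ) := by
  refine ⟨fun D => part_of, ⟨t_ETA.2.2.2.1, t_ETA.2.2.2.2⟩, fun m R hm hR hR8 => ?_⟩
  have hR8' : ∀ r ∈ R, r = 1 ∨ r = 3 ∨ r = 5 ∨ r = 7 := by
    intro r hr
    have := hR8 hr
    simpa using this
  have hg : ∀ D : ℤ, InClass D → (Good D ↔ Pool.Agent.NH5.LK.NoSel D) := fun D hD => by
    rw [← rankZero_iff]
    exact ⟨fun g => g.1, fun g => ⟨g, part_of (adm_of hD) g⟩⟩
  obtain ⟨h1, c, X₀, hc, h2⟩ := law' hm hR hR8'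
  refine ⟨?_, c, X₀, hc, fun X hX => ?_⟩
  · refine h1.congr fun X => ?_
    rw [count_eq, count_eq]
    congr 2
    · refine ct_congr (fun D => ?_) X
      constructor
      · rintro ⟨g1, ⟨g2, g3, g4⟩, g5⟩
        exact ⟨⟨g1, g2⟩, g3, g5, (hg D ⟨g1, g2⟩).2 g4⟩
      · rintro ⟨g1, g2, g3, g4⟩
        exact ⟨g1.1, ⟨g1.2, g2, (hg D g1).1 g4⟩, g3⟩
    · refine ct_congr (fun D => ?_) X
      rw [inClass_iff]
      tauto
  · refine (h2 X hX).trans ?_
    rw [count_eq]
    have h3 := ct_mono (X := X) (Q := fun D => D ≠ 1 ∧ (Bal D ∧ Int.gcd D m = 1 ∧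
      Pool.Agent.NH5.LK.NoSel D) ∧ D.natAbs % 8 ∈ R) (Q' := fun D => InClass D ∧ Int.gcd D m = 1 ∧
      D.natAbs % 8 ∈ R ∧ Good D) (by
        rintro D ⟨g1, ⟨g2, g3, g4⟩, g5⟩
        exact ⟨⟨g1, g2⟩, g3, g5, (hg D ⟨g1, g2⟩).2 g4⟩)
    exact_mod_cast h3

end Pool.Agent.Results.MP_3283e1_nt.MeanLawX14
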